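import Pool.Agent.Helper1.Stab.Model
import Pool.Agent.Helper1.Stab.Grass

/-! Frames and Hermitian projections: auxiliary lemmas. -/

open Topology Filter Set Matrix

noncomputable section

namespace Pool.Agent.Helper4.Stab

open Pool.Agent.Helper1.Stab

/-- the row of a frame of a coordinate -/
def rw' {k : ℕ} (x : Fin k × Bool) : ℕ := 2 * x.1 + (if x.2 then 0 else 1)

theorem rw'_lt {k : ℕ} (x : Fin k × Bool) : rw' x < 2 * k := by
  unfold rw'
  have := x.1.2
  split_ifs <;> omega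

theorem rw'_inj {k : ℕ} {x y : Fin k × Bool} (h : rw' x = rw' y) : x = y := by
  obtain ⟨x1, x2⟩ := x
  obtain ⟨y1, y2⟩ := y
  unfold rw' at h
  cases x2 <;> cases y2 <;> simp at h ⊢ <;> omega

/-- the coordinate of a row -/
def cr {k : ℕ} (i : ℕ) (h : i < 2 * k) : Fin k × Bool := (⟨i / 2, by omega⟩, decide (i % 2 = 0))

theorem rw'_cr {k : ℕ} (i : ℕ) (h : i < 2 * k) : rw' (cr i h) = i := by
  unfold rw' cr
  rcases Nat.mod_two_eq_zero_or_one i with h2 | h2
  · simp [h2]
    omega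
  · simp [h2]
    omega

theorem sum_rows {k : ℕ} (F : ℕ → ℂ) :
    ∑ x : Fin k × Bool, F (rw' x) = ∑ i ∈ Finset.range (2 * k), F i := by
  refine Finset.sum_bij (fun x _ => rw' x) (fun x _ => Finset.mem_range.2 (rw'_lt x))
    (fun x _ y _ h => rw'_inj h) (fun i hi => ⟨cr i (Finset.mem_range.1 hi), Finset.mem_univ _,
      rw'_cr i _⟩) (fun x _ => rfl)

/-- the matrix of a frame -/
def mat {k : ℕ} (A : Frame k) : Matrix (Fin k × Bool) (Fin k) ℂ := fun x c => A.1 (rw' x) c

theorem mat_iso {k : ℕ} (A : Frame k) : (mat A)ᴴ * mat A = 1 := by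
  ext c c'
  rw [Matrix.mul_apply, Matrix.one_apply]
  have h := A.2.2 c c.2 c' c'.2
  have h2 := sum_rows (k := k) (fun i => star (A.1 i c) * A.1 i c')
  simp only [Matrix.conjTranspose_apply, mat]
  rw [h2, h]
  by_cases hc : c = c'
  · subst hc
    simp
  · rw [if_neg hc, if_neg (fun h => hc (Fin.ext h))]

theorem proj_prop {k : ℕ} {V : Matrix (Fin k × Bool) (Fin k) ℂ} (h : Vᴴ * V = 1) :
    (V * Vᴴ)ᴴ = V * Vᴴ ∧ (V * Vᴴ) * (V * Vᴴ) = V * Vᴴ ∧ (V * Vᴴ).trace = Fintype.card (Fin k) := by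
  refine ⟨by simp, ?_, ?_⟩
  · rw [Matrix.mul_assoc, ← Matrix.mul_assoc (Vᴴ), h, Matrix.one_mul]
  · rw [Matrix.trace_mul_comm, h, Matrix.trace_one]

/-- A Hermitian projection of rank `k` is `V Vᴴ` for an isometry `V`. -/
theorem exists_iso {k : ℕ} (P : Matrix (Fin k × Bool) (Fin k × Bool) ℂ) (h1 : Pᴴ = P)
    (h2 : P * P = P) (h3 : P.trace = (Fintype.card (Fin k) : ℂ)) :
    ∃ V : Matrix (Fin k × Bool) (Fin k) ℂ, Vᴴ * V = 1 ∧ V * Vᴴ = P := by
  classical
  have hH : P.IsHermitian := h1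
  set U : Matrix (Fin k × Bool) (Fin k × Bool) ℂ := (hH.eigenvectorUnitary).1 with hU
  have hUU : Uᴴ * U = 1 := by
    have := (Matrix.mem_unitaryGroup_iff').1 hH.eigenvectorUnitary.2
    exact this
  have hUU' : U * Uᴴ = 1 := by
    have := (Matrix.mem_unitaryGroup_iff).1 hH.eigenvectorUnitary.2
    exact this
  have hS : P = U * Matrix.diagonal (fun i => ((hH.eigenvalues i : ℝ) : ℂ)) * Uᴴ := by
    have := hH.spectral_theorem
    exact this
  have hD : Uᴴ * P * U = Matrix.diagonal (fun i => ((hH.eigenvalues i : ℝ) : ℂ)) := by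
    conv_lhs => rw [hS]
    rw [← Matrix.mul_assoc, ← Matrix.mul_assoc, hUU, Matrix.one_mul, Matrix.mul_assoc, hUU,
      Matrix.mul_one]
  have hDD : Matrix.diagonal (fun i => ((hH.eigenvalues i : ℝ) : ℂ)) *
      Matrix.diagonal (fun i => ((hH.eigenvalues i : ℝ) : ℂ)) =
      Matrix.diagonal (fun i => ((hH.eigenvalues i : ℝ) : ℂ)) := by
    rw [← hD]
    calc Uᴴ * P * U * (Uᴴ * P * U) = Uᴴ * P * (U * Uᴴ) * P * U := by simp only [Matrix.mul_assoc]
      _ = Uᴴ * (P * P) * U := by rw [hUU', Matrix.mul_one]; simp only [Matrix.mul_assoc]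
      _ = Uᴴ * P * U := by rw [h2]
  have hev : ∀ i, hH.eigenvalues i = 0 ∨ hH.eigenvalues i = 1 := by
    intro i
    rw [Matrix.diagonal_mul_diagonal] at hDD
    have h4 := congrFun (Matrix.diagonal_injective hDD) i
    have h5 : hH.eigenvalues i * hH.eigenvalues i = hH.eigenvalues i := by exact_mod_cast h4
    have h6 : hH.eigenvalues i * (hH.eigenvalues i - 1) = 0 := by linarith
    rcases mul_eq_zero.1 h6 with h7 | h7
    · exact Or.inl h7
    · exact Or.inr (by linarith)
  have hcard : Fintype.card {i : Fin k × Bool // hH.eigenvalues i = 1} = k := by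
    have h4 : P.trace = ∑ i, ((hH.eigenvalues i : ℝ) : ℂ) := by
      conv_lhs => rw [hS]
      rw [Matrix.trace_mul_comm, ← Matrix.mul_assoc, hUU, Matrix.one_mul, Matrix.trace_diagonal]
    have h5 : ∑ i, ((hH.eigenvalues i : ℝ) : ℂ) =
        ∑ i : Fin k × Bool, if hH.eigenvalues i = 1 then (1 : ℂ) else 0 := by
      refine Finset.sum_congr rfl fun i _ => ?_
      rcases hev i with h | h
      · rw [h, if_neg (by norm_num)]
        simp
      · rw [if_pos h, h]
        simp
    rw [h4, h5, Finset.sum_ite, Finset.sum_const, Finset.sum_const_zero, add_zero] at h3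
    rw [Fintype.card_subtype]
    have h6 : (((Finset.univ.filter fun i : Fin k × Bool => hH.eigenvalues i = 1).card : ℕ) : ℂ) =
        ((Fintype.card (Fin k) : ℕ) : ℂ) := by
      rw [← h3]
      simp
    have h7 := Nat.cast_injective h6
    rw [h7, Fintype.card_fin]
  let σ : Fin k ≃ {i : Fin k × Bool // hH.eigenvalues i = 1} :=
    (Fintype.equivFinOfCardEq hcard).symm
  refine ⟨Matrix.of fun x c => U x (σ c).1, ?_, ?_⟩
  · ext c c'
    rw [Matrix.mul_apply, Matrix.one_apply]
    have h4 := congrFun (congrFun hUU (σ c).1) (σ c').1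
    rw [Matrix.mul_apply, Matrix.one_apply] at h4
    simp only [Matrix.conjTranspose_apply, Matrix.of_apply] at h4 ⊢
    rw [h4]
    by_cases hc : c = c'
    · subst hc
      simp
    · rw [if_neg hc, if_neg]
      intro h5
      exact hc (σ.injective (Subtype.ext h5))
  · ext x y
    conv_rhs => rw [hS]
    rw [Matrix.mul_apply, Matrix.mul_apply]
    simp only [Matrix.mul_diagonal, Matrix.conjTranspose_apply, Matrix.of_apply]
    have h5 : ∑ i : Fin k × Bool, U x i * ((hH.eigenvalues i : ℝ) : ℂ) * star (U y i) =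
        ∑ i : Fin k × Bool, if hH.eigenvalues i = 1 then U x i * star (U y i) else 0 := by
      refine Finset.sum_congr rfl fun i _ => ?_
      rcases hev i with h | h
      · rw [h, if_neg (by norm_num)]
        simp
      · rw [if_pos h, h]
        simp
    rw [h5, ← Finset.sum_filter, Finset.sum_subtype (p := fun i => hH.eigenvalues i = 1)
      (Finset.univ.filter fun i => hH.eigenvalues i = 1) (by simp)]
    rw [← Equiv.sum_comp σ (fun i : {i : Fin k × Bool // hH.eigenvalues i = 1} =>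
      U x i.1 * star (U y i.1))]

theorem proj_fun {k : ℕ} (A : Frame k) : (fun x y : Fin k × Bool =>
    ∑ c ∈ Finset.range k, A.1 (2 * x.1 + (if x.2 then 0 else 1)) c *
      star (A.1 (2 * y.1 + (if y.2 then 0 else 1)) c) :
      Matrix (Fin k × Bool) (Fin k × Bool) ℂ) = mat A * (mat A)ᴴ := by
  ext x y
  rw [Matrix.mul_apply, Finset.sum_range]
  rfl

theorem mat_rel {k : ℕ} {D : Set ℂ} {A B : Frame k} (h : FrameRel D k A B) :
    mat B * (mat B)ᴴ = mat A * (mat A)ᴴ := by
  obtain ⟨g, hg, -, hB⟩ := h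
  have h1 : mat B = mat A * g := by
    ext x j
    rw [Matrix.mul_apply]
    exact hB (rw' x) j
  have h2 : g * gᴴ = 1 := (Matrix.mem_unitaryGroup_iff).1 hg
  rw [h1, Matrix.conjTranspose_mul, Matrix.mul_assoc, ← Matrix.mul_assoc g, h2, Matrix.one_mul]

theorem rel_of_mat {k : ℕ} {A B : Frame k} (h : mat A * (mat A)ᴴ = mat B * (mat B)ᴴ) :
    FrameRel Set.univ k A B := by
  have hAB : mat A * ((mat A)ᴴ * mat B) = mat B := by
    rw [← Matrix.mul_assoc, h, Matrix.mul_assoc, mat_iso, Matrix.mul_one]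
  refine ⟨(mat A)ᴴ * mat B, ?_, Set.mem_univ _, ?_⟩
  · rw [Matrix.mem_unitaryGroup_iff']
    show ((mat A)ᴴ * mat B)ᴴ * ((mat A)ᴴ * mat B) = 1
    rw [Matrix.conjTranspose_mul, Matrix.conjTranspose_conjTranspose, Matrix.mul_assoc, hAB,
      mat_iso]
  · intro i j
    by_cases hi : i < 2 * k
    · have h1 := congrFun (congrFun hAB (cr i hi)) j
      rw [Matrix.mul_apply] at h1
      have h2 : ∀ l : Fin k, mat A (cr i hi) l = A.1 i l := by
        intro l
        show A.1 (rw' (cr i hi)) l = _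
        rw [rw'_cr]
      have h3 : mat B (cr i hi) j = B.1 i j := by
        show B.1 (rw' (cr i hi)) j = _
        rw [rw'_cr]
      rw [h3] at h1
      rw [← h1]
      refine Finset.sum_congr rfl fun l _ => ?_
      rw [h2]
    · have h1 : ∀ (C : Frame k) (l : Fin k), C.1 i l = 0 := by
        intro C l
        rw [C.2.1 i l (Or.inl (by omega)), if_neg]
        have := l.2
        omega
      rw [h1 B j]
      symm
      refine Finset.sum_eq_zero fun l _ => ?_
      rw [h1 A l, zero_mul]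

/-- the infinite matrix of an isometry -/
def fr {k : ℕ} (V : Matrix (Fin k × Bool) (Fin k) ℂ) (i j : ℕ) : ℂ :=
  if h : i < 2 * k ∧ j < k then V (cr i h.1) ⟨j, h.2⟩ else if i = 2 * j then 1 else 0

theorem fr_out {k : ℕ} (V : Matrix (Fin k × Bool) (Fin k) ℂ) {i j : ℕ} (h : 2 * k ≤ i ∨ k ≤ j) :
    fr V i j = if i = 2 * j then 1 else 0 := dif_neg (by omega)

theorem fr_row {k : ℕ} (V : Matrix (Fin k × Bool) (Fin k) ℂ) (x : Fin k × Bool) (l : ℕ)
    (hl : l < k) : fr V (rw' x) l = V x ⟨l, hl⟩ := by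
  unfold fr
  rw [dif_pos ⟨rw'_lt x, hl⟩]
  exact congrFun (congrArg V (rw'_inj (rw'_cr _ _))) _

theorem exists_frame {k : ℕ} (V : Matrix (Fin k × Bool) (Fin k) ℂ) (hV : Vᴴ * V = 1) :
    ∃ A : Frame k, mat A = V := by
  refine ⟨⟨fr V, fun i j h => fr_out V h, ?_⟩, ?_⟩
  · intro j hj j' hj'
    have h1 := congrFun (congrFun hV ⟨j, hj⟩) ⟨j', hj'⟩
    rw [Matrix.mul_apply, Matrix.one_apply] at h1
    simp only [Fin.mk.injEq, Matrix.conjTranspose_apply] at h1
    rw [← h1, ← sum_rows (k := k)]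
    refine Finset.sum_congr rfl fun x _ => ?_
    rw [fr_row V x j hj, fr_row V x j' hj']
  · ext x c
    exact fr_row V x c c.2

theorem mat_std {k : ℕ} (x y : Fin k × Bool) :
    (mat (Frame.std k) * (mat (Frame.std k))ᴴ) x y = if x = y ∧ x.2 = true then 1 else 0 := by
  rw [Matrix.mul_apply]
  have h1 : ∀ (z : Fin k × Bool) (c : Fin k), mat (Frame.std k) z c =
      if z.1 = c ∧ z.2 = true then 1 else 0 := by
    intro z c
    show (if rw' z = 2 * (c : ℕ) then (1 : ℂ) else 0) = _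
    congr 1
    unfold rw'
    apply propext
    obtain ⟨z1, z2⟩ := z
    cases z2 <;> simp <;> omega
  simp only [Matrix.conjTranspose_apply, h1]
  obtain ⟨x1, x2⟩ := x
  obtain ⟨y1, y2⟩ := y
  cases x2
  · simp
  · cases y2
    · simp
    · simp [Finset.sum_ite_eq]

end Pool.Agent.Helper4.Stab
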